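import Pool.Agent.H7.HD.Targets9
import Pool.Agent.H7.HD.All
import Pool.Agent.H3.HD.Iter

/-!
# MP_e37c09_lc, module NP: the points which are split by ordinal definable sets are null
-/

open Ordinal Cardinal Order Set
open scoped ZFSet

universe u

namespace Pool.Agent.H77.HD9.NP

open _root_.HD

theorem lim_of_cof {lam : Ordinal.{u}} (h : ℵ₀ < lam.cof) : IsSuccLimit lam :=
  Ordinal.one_lt_cof_iff.1 (Cardinal.one_lt_aleph0.trans h)

/-- the intersection of few club sets -/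
theorem clb_inter {D : Cardinal.{u}} {lam : Ordinal.{u}} (hcof : ℵ₀ < lam.cof)
    (hDlam : D < lam.cof) (Cs : Ordinal.{u} → Set Ordinal.{u}) (hCs : ∀ i, Clb lam (Cs i)) :
    Clb lam {x | ∀ i < D.ord, x ∈ Cs i} := by
  have hlim : IsSuccLimit lam := lim_of_cof hcof
  refine ⟨fun a ha => ?_, fun x hx hx0 h => ?_⟩
  · have hP : ∀ b < lam, ∃ b' < lam, b < b' ∧ ∀ i < D.ord, ∃ z ∈ Cs i, b < z ∧ z < b' := by
      intro b hb
      have h2 : ∀ i : Ordinal.{u}, ∃ z < lam, b < z ∧ z ∈ Cs i := fun i => (hCs i).unb b hb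
      choose z hz1 hz2 hz3 using h2
      obtain ⟨s, hs, hs2⟩ := Pool.Agent.H3.HD.exists_bound (ρ := lam) (τ := D.ord)
        (by rw [Cardinal.card_ord]; exact hDlam) z fun i _ => hz1 i
      refine ⟨max (succ s) (succ b), max_lt (hlim.succ_lt hs) (hlim.succ_lt hb),
        lt_of_lt_of_le (lt_succ b) (le_max_right _ _), fun i hi => ⟨z i, hz3 i, hz2 i, ?_⟩⟩
      exact lt_of_le_of_lt (hs2 i hi) (lt_of_lt_of_le (lt_succ s) (le_max_left _ _))
    obtain ⟨x, hx, s, hs0, hsx, hsP, hsy⟩ := Pool.Agent.H3.HD.exists_iter hcof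
      (fun b b' => ∀ i < D.ord, ∃ z ∈ Cs i, b < z ∧ z < b') hP a ha
    refine ⟨x, hx, by rw [← hs0]; exact hsx 0, fun i hi => ?_⟩
    refine (hCs i).cls x hx (lt_of_le_of_lt bot_le (hsx 0))
      fun y hy => ?_
    obtain ⟨n, hn⟩ := hsy y hy
    obtain ⟨z, hz, hz1, hz2⟩ := hsP n i hi
    exact ⟨z, hz2.trans (hsx (n + 1)), hn.trans hz1, hz⟩
  · intro i hi
    refine (hCs i).cls x hx hx0 fun y hy => ?_
    obtain ⟨z, hz, hyz, hzC⟩ := h y hy
    exact ⟨z, hz, hyz, hzC i hi⟩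

theorem X : T_NP.{u} := by
  intro en D G K c hen hBG hK hGK hat
  have hDG : D ≤ G := hBG.dg
  have hG0 : ℵ₀ < G := hBG.dunc.trans_le hDG
  have hK0 : ℵ₀ < K := hG0.trans hGK
  have hKc : K.ord.cof = K := hK.cof_ord
  have hKcof : ℵ₀ < K.ord.cof := by rw [hKc]; exact hK0
  obtain ⟨hE1, hE2, hE3, hE4⟩ := All.ea en hen
  obtain ⟨Sp, hSp⟩ : ∃ Sp : Set Ordinal.{u}, ∀ ν, ν ∈ Sp ↔
      ∃ x, Pos (ℵ₀ : Cardinal.{u}).ord ν (E en c ∩ E en x) ∧
        Pos (ℵ₀ : Cardinal.{u}).ord ν (E en c \ E en x) := ⟨{ν | _}, fun ν => Iff.rfl⟩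
  -- the set of the points at which `E en c` is positive
  have hc : DO fun w : ℕ → Ordinal.{u} => w 0 ∈ E en c :=
    DO.sub (R := fun x w => w 0 ∈ E en x) c (DO.s2 (X := fun a c => a ∈ E en c) hE1 1 0)
  have hY : DS {ν | Pos (ℵ₀ : Cardinal.{u}).ord ν (E en c)} := by
    refine DO.sub (R := fun x w => Pos x (w 0) {a | a ∈ E en c}) (ℵ₀ : Cardinal.{u}).ord ?_
    exact All.da 0 1 (fun a _ => a ∈ E en c) hc
  obtain ⟨y, hy⟩ := hE3 _ hY K.ord
  have hnull : ∀ N : Cardinal.{u}, N.IsRegular → ℵ₀ < N → N < D → ¬ Pos N.ord K.ord Sp := by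
    intro N hN hN0 hND
    have hNK : N < K := (hND.trans_le hDG).trans hGK
    have hGc : G < K.ord.cof := by rw [hKc]; exact hGK
    obtain ⟨τ, hτ, e, he, hcov⟩ := All.hc en hen G N K hBG.greg hG0 hN (hND.trans_le hDG) hK hGK
      (All.ha _ _ _ (hBG.ns N hN hND K.ord hGc))
      (fun X hX hP => hBG.atm en hen N hN hND K.ord hGc X hX hP)
    have hpart : ∀ i < τ, ¬ Pos N.ord K.ord {ν | ν ∈ E en (e i) ∧ ν ∈ Sp} := by
      intro i hi
      have hA := he i hi
      have hult := hA.ult y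
      by_cases hp : Pos N.ord K.ord (E en (e i) \ E en y)
      · -- almost nowhere positive
        have hq : ¬ Pos N.ord K.ord (E en (e i) ∩ E en y) := fun hq => hult ⟨hq, hp⟩
        refine fun hpos => hq (hpos.mono fun ν hν hm _ => ?_)
        obtain ⟨x, hx1, hx2⟩ := (hSp ν).1 hm.2
        refine ⟨hm.1, ?_⟩
        rw [hy]
        exact ⟨hx1.mono fun b _ hb _ => hb.1, hν⟩
      · have hTwo : Two en ℵ₀ N K c (e i) :=
          { hen := hen
            mreg := Cardinal.isRegular_aleph0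
            nreg := hN
            kreg := hK
            mn := hN0
            nk := hNK
            ac := hat
            ad := hA
            pos := by
              refine fun hpos => hp (hpos.mono fun ν hν hm _ => ⟨hm.1, fun hyν => ?_⟩)
              rw [hy] at hyν
              exact hm.2 hyν.1 }
        have h1 := All.hi en ℵ₀ N K c (e i) hTwo
        refine fun hpos => h1 (hpos.mono fun ν hν hm _ => ⟨hm.1, ?_⟩)
        exact (hSp ν).1 hm.2
    have hτK : τ.card < K.ord.cof := by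
      rw [hKc]
      have h2 : τ.card < G := by
        rw [← Cardinal.card_ord G]
        exact (Cardinal.lt_ord.1 (by rwa [Cardinal.card_ord]))
      exact h2.trans hGK
    have h3 := All.va N.ord K.ord hKcof τ hτK (fun i => {ν | ν ∈ E en (e i) ∧ ν ∈ Sp}) hpart
    have h4 := null_union All.va hKcof hcov h3
    refine fun hpos => h4 (hpos.mono fun ν hν hm _ => ?_)
    by_cases h5 : ∀ i < τ, ν ∉ E en (e i)
    · exact Or.inl h5
    · push Not at h5
      obtain ⟨i, hi, h6⟩ := h5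
      exact Or.inr ⟨i, hi, h6, hm⟩
  -- the club sets
  have h1 : ∀ i : Ordinal.{u}, ∃ C : Set Ordinal.{u}, Clb K.ord C ∧ (i.card.IsRegular →
      ℵ₀ < i.card → i.card < D → ∀ b < K.ord, b ∈ C → b ∈ Sp → ¬ Cf i.card.ord b) := by
    intro i
    by_cases h : i.card.IsRegular ∧ ℵ₀ < i.card ∧ i.card < D
    · have h2 := hnull i.card h.1 h.2.1 h.2.2
      rw [Pos] at h2
      rw [not_forall] at h2
      obtain ⟨C, h2⟩ := h2
      rw [Classical.not_imp] at h2
      obtain ⟨hC, h3⟩ := h2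
      exact ⟨C, hC, fun _ _ _ b hb hbC hbS hcf => h3 ⟨b, hb, hbC, hbS, hcf⟩⟩
    · have hlim : IsSuccLimit K.ord := lim_of_cof hKcof
      refine ⟨univ, ⟨fun a ha => ⟨succ a, hlim.succ_lt ha, lt_succ a, mem_univ _⟩,
        fun _ _ _ _ => mem_univ _⟩, fun h3 h4 h5 => absurd ⟨h3, h4, h5⟩ h⟩
  choose Cs hCs hCs2 using h1
  refine ⟨{x | ∀ i < D.ord, x ∈ Cs i}, clb_inter hKcof (by rw [hKc]; exact hDG.trans_lt hGK) Cs hCs,
    ?_⟩
  intro ν hνC hν hν0 hνD x hx
  have h2 : ν ∈ Cs ν.cof.ord := hνC _ (Cardinal.ord_lt_ord.2 hνD)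
  have h3 := hCs2 ν.cof.ord
  rw [Cardinal.card_ord] at h3
  exact h3 (Cardinal.isRegular_cof (lim_of_cof hν0)) hν0 hνD ν hν h2 ((hSp ν).2 ⟨x, hx⟩) rfl

end Pool.Agent.H77.HD9.NP
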