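import Pool.Agent.H7.HD.Targets9
import Pool.Agent.H7.HD.All
import Pool.Agent.H3.HD.Iter
import Pool.Agent.H2.HD.UV

/-!
# MP_e37c09_lc, module SH: splitting by classes (an adaptation of `Pool/Agent/H59/HD/SV.lean`)
-/

set_option autoImplicit false

open Ordinal Cardinal Order Set
open scoped ZFSet

universe u

namespace Pool.Agent.H77.HD9.SH

open _root_.HD

theorem clb_univ {K : Cardinal.{u}} (hK0 : ℵ₀ < K) : Clb K.ord (univ : Set Ordinal.{u}) := by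
  refine ⟨fun a ha => ⟨a + 1, ?_, _root_.lt_add_one a, mem_univ _⟩, fun x _ _ _ => mem_univ _⟩
  exact (Cardinal.isSuccLimit_ord hK0.le).add_one_lt ha

/-- the data -/
structure Dat where
  en : Ordinal.{u} → ZFSet.{u}
  S : Set Ordinal.{u}
  R : Ordinal.{u} → Ordinal.{u} → Ordinal.{u} → Prop
  t : Ordinal.{u} → Ordinal.{u} → Ordinal.{u}
  δ : Ordinal.{u}
  κ : Ordinal.{u}

/-- the assumptions on the data -/
structure Ok (d : Dat.{u}) : Prop where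
  hen : EN d.en
  hS : DS d.S
  hR : DO fun w => d.R (w 0) (w 1) (w 2)
  ht : DO fun w => w 2 = d.t (w 0) (w 1)
  inj : ∀ a b a' b', d.t a b = d.t a' b' → a = a' ∧ b = b'

/-- `z < κ`, and the `z`-th set is positive for the class with code `p` -/
def Ap (d : Dat.{u}) (z p : Ordinal.{u}) : Prop :=
  z < d.κ ∧ ∃ ν g, p = d.t ν g ∧ ∃ h : Ordinal.{u} → Ordinal.{u},
    Cl d.en (ℵ₀ : Cardinal.{u}).ord ν d.S g h ∧
      Pos (ℵ₀ : Cardinal.{u}).ord ν {a | a ∈ d.S ∧ d.R a (h a) z}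

theorem ap_do (hCD : T_CD.{u}) {d : Dat.{u}} (ok : Ok d) : DO fun w => Ap d (w 0) (w 1) := by
  refine DO.and (DO.ltc 0 d.κ) ?_
  refine DO.ex (R := fun ν w => ∃ g, w 1 = d.t ν g ∧ ∃ h : Ordinal.{u} → Ordinal.{u},
    Cl d.en (ℵ₀ : Cardinal.{u}).ord ν d.S g h ∧
      Pos (ℵ₀ : Cardinal.{u}).ord ν {a | a ∈ d.S ∧ d.R a (h a) (w 0)}) ?_
  refine DO.ex (R := fun g w => w 2 = d.t (w 0) g ∧ ∃ h : Ordinal.{u} → Ordinal.{u},
    Cl d.en (ℵ₀ : Cardinal.{u}).ord (w 0) d.S g h ∧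
      Pos (ℵ₀ : Cardinal.{u}).ord (w 0) {a | a ∈ d.S ∧ d.R a (h a) (w 1)}) ?_
  refine DO.and (DO.s3 (X := fun a b c => c = d.t a b) ok.ht 1 0 3) ?_
  exact hCD d.en (ℵ₀ : Cardinal.{u}).ord d.S ok.hen ok.hS (fun a b w => d.R a b (w 2))
    (DO.s3 (X := fun a b c => d.R a b c) ok.hR 0 1 4) 1 0

/-- `p` is the code of a class at a limit ordinal of cofinality less than `δ` -/
def Lc (d : Dat.{u}) (p : Ordinal.{u}) : Prop :=
  ∃ ν g, p = d.t ν g ∧ (0 < ν ∧ ∀ y < ν, ∃ z < ν, y < z) ∧ ∃ m < d.δ, Cf m ν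

theorem lc_do {d : Dat.{u}} (ok : Ok d) : DO fun w => Lc d (w 0) := by
  refine DO.ex (R := fun ν w => ∃ g, w 0 = d.t ν g ∧ (0 < ν ∧ ∀ y < ν, ∃ z < ν, y < z) ∧
    ∃ m < d.δ, Cf m ν) ?_
  refine DO.ex (R := fun g w => w 1 = d.t (w 0) g ∧ (0 < w 0 ∧ ∀ y < w 0, ∃ z < w 0, y < z) ∧
    ∃ m < d.δ, Cf m (w 0)) ?_
  refine DO.and (DO.s3 (X := fun a b c => c = d.t a b) ok.ht 1 0 2) ?_
  refine DO.and (DO.and (DO.gtc 1 0) ?_) ?_
  · refine DO.allLt (R := fun y w => ∃ z < w 1, y < z) 1 ?_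
    exact DO.exLt (R := fun z w => w 0 < z) 2 (DO.lt 1 0)
  · exact DO.exLtc (R := fun m w => Cf m (w 1)) d.δ (do_Cf All.la 0 2)

/-- `p` is the code of a class at a limit ordinal of cofinality less than `δ`, and the set of the
indices `z` is cofinal in `b` -/
def Good (d : Dat.{u}) (b p : Ordinal.{u}) : Prop :=
  Lc d p ∧ ∀ y < b, ∃ z < b, y < z ∧ Ap d z p

theorem good_do (hCD : T_CD.{u}) {d : Dat.{u}} (ok : Ok d) : DR (Good d) := by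
  refine DO.and (DO.s1 (X := fun a => Lc d a) (lc_do ok) 1) ?_
  refine DO.allLt (R := fun y w => ∃ z < w 0, y < z ∧ Ap d z (w 1)) 0 ?_
  refine DO.exLt (R := fun z w => w 0 < z ∧ Ap d z (w 2)) 1 ?_
  exact DO.and (DO.lt 1 0) ((ap_do hCD ok).s2 0 3)

/-- the `i`-th index below `b` for the least good `p` -/
def Tr (d : Dat.{u}) (i b a : Ordinal.{u}) : Prop :=
  ∃ p, Pool.Agent.H17.HD.XK.Lst (Good d) b p ∧ nth {z | z < b ∧ Ap d z p} i a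

theorem tr_do (hCD : T_CD.{u}) {d : Dat.{u}} (ok : Ok d) (i : Ordinal.{u}) : DR (Tr d i) := by
  refine DO.ex (R := fun p w => Pool.Agent.H17.HD.XK.Lst (Good d) (w 0) p ∧
    nth {z | z < w 0 ∧ Ap d z p} i (w 1)) ?_
  refine DO.and ((Pool.Agent.H17.HD.XK.Lst.do (good_do hCD ok)).s2 1 0) ?_
  refine DO.sub i (R := fun i w => nth {z | z < w 1 ∧ Ap d z (w 0)} i (w 2)) ?_
  have h := All.db (fun z w => z < w 0 ∧ Ap d z (w 1))
    (DO.and (DO.lt 0 1) ((ap_do hCD ok).s2 0 2))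
  exact DO.s4 (X := fun p q r t => nth {z | z < r ∧ Ap d z t} p q) h 0 3 2 1

theorem tr_uniq {d : Dat.{u}} {i b a a' : Ordinal.{u}} (h : Tr d i b a) (h' : Tr d i b a') :
    a = a' := by
  obtain ⟨p, h1, h2⟩ := h
  obtain ⟨p', h1', h2'⟩ := h'
  have e := h1.uniq h1'
  subst e
  exact Pool.Agent.H17.HD.XK.nth_uniq All.vh h2 h2'

theorem sh (hCE : T_CE.{u}) (hCU : T_CU.{u}) (hCD : T_CD.{u}) (hSR : T_SR.{u}) (hNA : T_NA.{u})
    (hUB : T_UB.{u}) (hPC : T_PC.{u}) : T_SH.{u} := by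
  classical
  intro en D K κ W S h R hen hDreg hD0 hK hDK hκ hW hS hR huniq hLU hpos τ hτ0 hτK
  have hK0 : ℵ₀ < K := hD0.trans hDK
  have hKc : K.ord.cof = K := hK.cof_ord
  have hKc0 : ℵ₀ < K.ord.cof := by rw [hKc]; exact hK0
  obtain ⟨t, ht, hinj, -⟩ := All.pr.{u}
  obtain ⟨d, hd⟩ : ∃ d : Dat.{u}, d = ⟨en, S, R, t, D.ord, K.ord⟩ := ⟨_, rfl⟩
  have ok : Ok d := by
    subst hd
    exact ⟨hen, hS, hR, ht, hinj⟩
  have hlimof : ∀ ν : Ordinal.{u}, (0 < ν ∧ ∀ y < ν, ∃ z < ν, y < z) → IsSuccLimit ν := by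
    rintro ν ⟨h0, h1⟩
    refine ⟨fun hmin => ?_, ?_⟩
    · have := hmin.eq_bot
      rw [this] at h0
      exact absurd h0 (lt_irrefl _)
    · intro y hy
      obtain ⟨z, hz, hyz⟩ := h1 y hy.1
      exact hy.2 hyz hz
  have hAW : ∀ i < K.ord, {ν | Pos (ℵ₀ : Cardinal.{u}).ord ν {a | a ∈ S ∧ R a (h a) i}} ∈ W :=
    fun i hi => hSR D ℵ₀ κ W hDreg hD0 hκ hW Cardinal.isRegular_aleph0 hD0 _ (hpos i hi)
  -- there is a good `p`
  have hgood : ∀ b < K.ord, b.cof = ℵ₀ → ∃ p, Good d b p := by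
    intro b hb hbc
    have hlim : IsSuccLimit b := by
      rw [← Ordinal.one_lt_cof_iff, hbc]
      exact Cardinal.one_lt_aleph0
    obtain ⟨g, hg1, -, hg3⟩ := Pool.Agent.H2.HD.UV.exists_seq hlim
    have h1 := hW.cmp b.cof.ord (by rw [hbc]; exact Cardinal.ord_lt_ord.2 hD0)
      (fun i => {ν | Pos (ℵ₀ : Cardinal.{u}).ord ν {a | a ∈ S ∧ R a (h a) (g i)}})
      (fun i hi => hAW (g i) ((hg1 i hi).trans hb))
    obtain ⟨ν, ⟨⟨hν1, hν2⟩, hν3⟩, hν4⟩ :=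
      W.nonempty_of_mem (Filter.inter_mem (Filter.inter_mem (Filter.inter_mem h1 hW.lim) hW.cf)
        hLU)
    have hν2' : IsSuccLimit ν := hν2
    obtain ⟨i0, hi0, -⟩ := hg3 0 hlim.bot_lt
    have hP0 : Pos (ℵ₀ : Cardinal.{u}).ord ν {a | a ∈ S ∧ R a (h a) (g i0)} := hν1 i0 hi0
    have hνc : ℵ₀ < ν.cof := hPC ℵ₀ ν _ Cardinal.isRegular_aleph0 hν2' hP0
    obtain ⟨c, hc⟩ := hCE en (ℵ₀ : Cardinal.{u}).ord ν S h hen hνc
      (hP0.mono fun _ _ ha _ => ha.1) hν4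
    refine ⟨t ν c, ?_, ?_⟩
    · subst hd
      exact ⟨ν, c, rfl, ⟨hν2'.bot_lt, fun y hy => ⟨y + 1, hν2'.add_one_lt hy,
        _root_.lt_add_one y⟩⟩, ν.cof.ord, Cardinal.ord_lt_ord.2 hν3, rfl⟩
    · intro y hy
      obtain ⟨i, hi, hyi⟩ := hg3 y hy
      subst hd
      exact ⟨g i, hg1 i hi, hyi, (hg1 i hi).trans hb, ν, c, rfl, h, hc, hν1 i hi⟩
  -- the set of the indices is small
  have hfew : ∀ b p, Good d b p → Few D.ord {z | z < b ∧ Ap d z p} := by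
    intro b p hgd
    by_cases hne : ∃ z, z < b ∧ Ap d z p
    swap
    · exact ⟨0, (Cardinal.isSuccLimit_ord hD0.le).bot_lt, id, fun x hx => absurd ⟨x, hx⟩ hne⟩
    obtain ⟨z0, -, hz0⟩ := hne
    obtain ⟨⟨ν, g, hp, hlm, m, hm, hc⟩, -⟩ := hgd
    have hlim : IsSuccLimit ν := hlimof ν hlm
    have hcf : ν.cof < D := by
      have h1 : ν.cof.ord = m := hc
      rw [← Cardinal.ord_lt_ord, h1]
      subst hd
      exact hm
    have hex : ∀ z, Ap d z p → ∃ h2 : Ordinal.{u} → Ordinal.{u},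
        Cl en (ℵ₀ : Cardinal.{u}).ord ν S g h2 ∧
          Pos (ℵ₀ : Cardinal.{u}).ord ν {a | a ∈ S ∧ R a (h2 a) z} := by
      rintro z ⟨-, ν', g', hp', h2, h3, h4⟩
      have h5 := ok.inj _ _ _ _ (hp.symm.trans hp')
      obtain ⟨rfl, rfl⟩ := h5
      subst hd
      exact ⟨h2, h3, h4⟩
    obtain ⟨k, hk, hkp⟩ := hex z0 hz0
    have hνc : ℵ₀ < ν.cof := hPC ℵ₀ ν _ Cardinal.isRegular_aleph0 hlim hkp
    obtain ⟨t', ht', e, he⟩ := hNA D ℵ₀ ν (fun a z => a ∈ S ∧ R a (k a) z) hlim hcf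
      (fun b i i' h1 h2 => huniq _ _ _ _ h1.2 h2.2)
    refine ⟨t', ht', e, fun z hz => he z ?_⟩
    obtain ⟨h2, h3, h4⟩ := hex z hz.2
    have h5 := hCU en (ℵ₀ : Cardinal.{u}).ord ν S g h2 k hen hνc h3 hk
    refine (pos_diff All.va hνc h4 h5).mono fun a _ ha _ => ?_
    obtain ⟨⟨haS, haR⟩, hne⟩ := ha
    have h6 : h2 a = k a := by
      by_contra hcon
      exact hne ⟨haS, hcon⟩
    exact ⟨haS, by rw [← h6]; exact haR⟩
  -- a positive set for some index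
  have hcl : ∀ l < K.ord, ∃ i < D.ord, Pos (ℵ₀ : Cardinal.{u}).ord K.ord
      {b | ∃ a, l ≤ a ∧ a < b ∧ Tr d i b a} := by
    intro l hl
    by_contra hcon
    push Not at hcon
    have hn := All.va (ℵ₀ : Cardinal.{u}).ord K.ord hKc0 D.ord
      (by rw [Cardinal.card_ord, hKc]; exact hDK)
      (fun i => {b | ∃ a, l ≤ a ∧ a < b ∧ Tr d i b a}) hcon
    have hl1 : l + 1 < K.ord := (Cardinal.isSuccLimit_ord hK0.le).add_one_lt hl
    have h1 : Pos (ℵ₀ : Cardinal.{u}).ord K.ord (univ \ Iio (l + 1)) :=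
      pos_diff All.va hKc0 (All.vc ℵ₀ K.ord Cardinal.isRegular_aleph0 hKc0)
        (All.vb _ K.ord (l + 1) (Cardinal.isSuccLimit_ord hK0.le) hl1)
    refine hn (h1.mono fun b hb hb1 hbc => ?_)
    have hlb : l < b := by
      have h2 : ¬ b < l + 1 := hb1.2
      exact (_root_.lt_add_one l).trans_le (not_lt.1 h2)
    have hbc' : b.cof = ℵ₀ := Cardinal.ord_injective hbc
    obtain ⟨p, hp⟩ := Pool.Agent.H17.HD.XK.Lst.exist (hgood b hb hbc')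
    obtain ⟨z, hz, hlz, hA⟩ := hp.1.2 l hlb
    obtain ⟨i, -, hi⟩ := (All.vh {z | z < b ∧ Ap d z p}).1 z ⟨hz, hA⟩
    obtain ⟨t, ht, -, hti⟩ := Pool.Agent.H17.HD.XK.idx All.vh (hfew b p hp.1)
    exact ⟨i, (hti i z hi).trans ht, z, hlz.le, hz, p, hp, hi⟩
  choose! f hf1 hf2 using hcl
  -- one index
  have hone : ∃ i < D.ord, ∀ l < K.ord, ∃ l', l ≤ l' ∧ l' < K.ord ∧ f l' = i := by
    by_contra hcon
    push Not at hcon
    choose! g hg1 hg2 using hcon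
    obtain ⟨t, ht, hgt⟩ := Pool.Agent.H3.HD.exists_bound (ρ := K.ord) (τ := D.ord)
      (by rw [Cardinal.card_ord, hKc]; exact hDK) g hg1
    exact hg2 (f t) (hf1 t ht) t (hgt _ (hf1 t ht)) ht rfl
  obtain ⟨i, hi, hi2⟩ := hone
  refine hUB K (Tr d i) hK hK0 (tr_do hCD ok _) (fun b a a' h h' => tr_uniq h h') ?_ τ hτ0 hτK
  intro l hl
  have hX : Pos (ℵ₀ : Cardinal.{u}).ord K.ord {b | ∃ a, l ≤ a ∧ a < b ∧ Tr d i b a} := by
    obtain ⟨l', hl', hl'K, rfl⟩ := hi2 l hl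
    refine (hf2 l' hl'K).mono fun b _ hb _ => ?_
    obtain ⟨a, ha, h⟩ := hb
    exact ⟨a, hl'.trans ha, h⟩
  have hex : ∀ b ∈ {b | ∃ a, l ≤ a ∧ a < b ∧ Tr d i b a},
      ∃ a, l ≤ a ∧ a < b ∧ Tr d i b a := fun b hb => hb
  choose! h' hh1 hh2 hh3 using hex
  obtain ⟨a, ha, hpa⟩ := All.vd _ K hK hK0 _ h' hX (fun b hb _ _ => hh2 b hb)
  refine ⟨a, ?_, ha, hpa.mono fun b _ hb _ => ?_⟩
  · obtain ⟨b, -, -, hb, -⟩ := hpa _ (clb_univ hK0)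
    rw [← hb.2]
    exact hh1 b hb.1
  · show Tr d i b a
    rw [← hb.2]
    exact hh3 b hb.1

end Pool.Agent.H77.HD9.SH
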